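import Mathlib

/-!
# A harmonic map on the right half plane, close to `Z ^ 2 / 4` on closed quadrants
-/

set_option autoImplicit false

open Complex

namespace Pool.Agent.H87.Harm

/-- the variable `Z / (1 + Z)` -/
noncomputable def E (Z : ℂ) : ℂ := Z / (1 + Z)

/-- the cubic part -/
noncomputable def Cf (Z : ℂ) : ℂ := 8 * E Z ^ 3 - 12 * E Z ^ 2

/-- the sextic part -/
noncomputable def Qf (Z : ℂ) : ℂ :=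
  156 * E Z ^ 2 - 776 * E Z ^ 3 + 1488 * E Z ^ 4 - 1248 * E Z ^ 5 + 384 * E Z ^ 6

/-- the part giving the dilatation -/
noncomputable def Sf (Z : ℂ) : ℂ := (5 / 4) * Z ^ 2 - 6 * (Z - E Z) + 8 * E Z ^ 2

/-- the harmonic map -/
noncomputable def F (ε : ℝ) (Z : ℂ) : ℂ :=
  Z ^ 2 / 4 + I * ε * Cf Z + 6 * (ε : ℂ) ^ 2 * Qf Z - ((12 * ε * (Sf Z).im : ℝ) : ℂ)

lemma one_add_ne {Z : ℂ} (h : 0 ≤ Z.re) : 1 + Z ≠ 0 := by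
  intro h0
  have := congrArg Complex.re h0
  simp at this
  linarith

lemma one_le_norm {Z : ℂ} (h : 0 ≤ Z.re) : 1 ≤ ‖1 + Z‖ := by
  have h1 : |(1 + Z).re| ≤ ‖1 + Z‖ := abs_re_le_norm _
  have h2 : (1 + Z).re = 1 + Z.re := by simp
  rw [h2, abs_of_nonneg (by linarith)] at h1
  linarith

lemma norm_le_one_add {Z : ℂ} (h : 0 ≤ Z.re) : ‖Z‖ ≤ ‖1 + Z‖ := by
  rw [← sq_le_sq₀ (norm_nonneg _) (norm_nonneg _), ← normSq_eq_norm_sq, ← normSq_eq_norm_sq,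
    normSq_apply, normSq_apply]
  simp only [add_re, one_re, add_im, one_im]
  nlinarith

lemma norm_E_le_one {Z : ℂ} (h : 0 ≤ Z.re) : ‖E Z‖ ≤ 1 := by
  rw [E, norm_div]
  exact (div_le_one (by linarith [one_le_norm h])).2 (norm_le_one_add h)

lemma norm_E_le {Z : ℂ} (h : 0 ≤ Z.re) : ‖E Z‖ ≤ ‖Z‖ := by
  rw [E, norm_div]
  exact div_le_self (norm_nonneg _) (one_le_norm h)

lemma E_sub {Z₁ Z₂ : ℂ} (h₁ : 0 ≤ Z₁.re) (h₂ : 0 ≤ Z₂.re) :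
    E Z₂ - E Z₁ = (Z₂ - Z₁) / ((1 + Z₁) * (1 + Z₂)) := by
  have n₁ := one_add_ne h₁
  have n₂ := one_add_ne h₂
  unfold E
  field_simp
  ring

lemma norm_E_sub {Z₁ Z₂ : ℂ} (h₁ : 0 ≤ Z₁.re) (h₂ : 0 ≤ Z₂.re) :
    ‖E Z₂ - E Z₁‖ ≤ ‖Z₂ - Z₁‖ := by
  rw [E_sub h₁ h₂, norm_div, norm_mul]
  apply div_le_self (norm_nonneg _)
  have a := one_le_norm h₁
  have b := one_le_norm h₂
  nlinarith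

/-- condition for two points in a common closed quadrant -/
lemma norm_le_add {Z₁ Z₂ : ℂ} (hq : 0 ≤ Z₁.re * Z₂.re + Z₁.im * Z₂.im) : ‖Z₁‖ ≤ ‖Z₁ + Z₂‖ := by
  rw [← sq_le_sq₀ (norm_nonneg _) (norm_nonneg _), ← normSq_eq_norm_sq, ← normSq_eq_norm_sq,
    normSq_apply, normSq_apply]
  simp only [add_re, add_im]
  nlinarith [mul_self_nonneg Z₂.re, mul_self_nonneg Z₂.im]

lemma pow_sub_le {a b : ℂ} {s : ℝ} (ha : ‖a‖ ≤ 1) (hb : ‖b‖ ≤ 1) (has : ‖a‖ ≤ s) (hbs : ‖b‖ ≤ s)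
    (j : ℕ) : ‖a ^ (j + 2) - b ^ (j + 2)‖ ≤ (j + 2 : ℕ) * (‖a - b‖ * s) := by
  induction j with
  | zero =>
    have e : a ^ (0 + 2) - b ^ (0 + 2) = (a - b) * (a + b) := by ring
    rw [e, norm_mul]
    have h1 : ‖a + b‖ ≤ 2 * s := (norm_add_le a b).trans (by linarith)
    have h2 := mul_le_mul_of_nonneg_left h1 (norm_nonneg (a - b))
    push_cast
    linarith
  | succ j ih =>
    have e : a ^ (j + 1 + 2) - b ^ (j + 1 + 2) =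
        a * (a ^ (j + 2) - b ^ (j + 2)) + (a - b) * b ^ (j + 2) := by ring
    rw [e]
    refine (norm_add_le _ _).trans ?_
    rw [norm_mul, norm_mul, norm_pow]
    have h1 : ‖a‖ * ‖a ^ (j + 2) - b ^ (j + 2)‖ ≤ 1 * ((j + 2 : ℕ) * (‖a - b‖ * s)) :=
      mul_le_mul ha ih (norm_nonneg _) zero_le_one
    have h2 : ‖b‖ ^ (j + 2) ≤ s := by
      calc ‖b‖ ^ (j + 2) = ‖b‖ * ‖b‖ ^ (j + 1) := by ring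
        _ ≤ ‖b‖ * 1 := mul_le_mul_of_nonneg_left (pow_le_one₀ (norm_nonneg _) hb) (norm_nonneg _)
        _ ≤ s := by linarith
    have h3 := mul_le_mul_of_nonneg_left h2 (norm_nonneg (a - b))
    push_cast at h1 ⊢
    linarith

/-- powers of `E` are Lipschitz in `Z ^ 2` on closed quadrants -/
lemma E_pow_sub {Z₁ Z₂ : ℂ} (h₁ : 0 ≤ Z₁.re) (h₂ : 0 ≤ Z₂.re)
    (hq : 0 ≤ Z₁.re * Z₂.re + Z₁.im * Z₂.im) (j : ℕ) :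
    ‖E Z₂ ^ (j + 2) - E Z₁ ^ (j + 2)‖ ≤ (j + 2 : ℕ) * ‖Z₂ ^ 2 - Z₁ ^ 2‖ := by
  have a₁ : ‖Z₁‖ ≤ ‖Z₂ + Z₁‖ := by rw [add_comm]; exact norm_le_add hq
  have a₂ : ‖Z₂‖ ≤ ‖Z₂ + Z₁‖ := norm_le_add (by linarith)
  have h := pow_sub_le (norm_E_le_one h₂) (norm_E_le_one h₁) ((norm_E_le h₂).trans a₂)
    ((norm_E_le h₁).trans a₁) j
  have e : ‖Z₂ ^ 2 - Z₁ ^ 2‖ = ‖Z₂ - Z₁‖ * ‖Z₂ + Z₁‖ := by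
    rw [← norm_mul]; congr 1; ring
  rw [e]
  have h3 := mul_le_mul_of_nonneg_right (norm_E_sub h₁ h₂) (norm_nonneg (Z₂ + Z₁))
  have h4 : (0 : ℝ) ≤ ((j + 2 : ℕ) : ℝ) := Nat.cast_nonneg _
  exact h.trans (mul_le_mul_of_nonneg_left h3 h4)

lemma Z_sub_E_sub {Z₁ Z₂ : ℂ} (h₁ : 0 ≤ Z₁.re) (h₂ : 0 ≤ Z₂.re)
    (hq : 0 ≤ Z₁.re * Z₂.re + Z₁.im * Z₂.im) :
    ‖(Z₂ - E Z₂) - (Z₁ - E Z₁)‖ ≤ 3 * ‖Z₂ ^ 2 - Z₁ ^ 2‖ := by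
  have n₁ := one_add_ne h₁
  have n₂ := one_add_ne h₂
  have a₁ : ‖Z₁‖ ≤ ‖Z₂ + Z₁‖ := by rw [add_comm]; exact norm_le_add hq
  have a₂ : ‖Z₂‖ ≤ ‖Z₂ + Z₁‖ := norm_le_add (by linarith)
  have e1 : (Z₂ - E Z₂) - (Z₁ - E Z₁) = (Z₂ - Z₁) * (E Z₁ + E Z₂ - E Z₁ * E Z₂) := by
    unfold E
    field_simp
    ring
  have e : ‖Z₂ ^ 2 - Z₁ ^ 2‖ = ‖Z₂ - Z₁‖ * ‖Z₂ + Z₁‖ := by
    rw [← norm_mul]; congr 1; ring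
  rw [e1, e, norm_mul]
  have b₁ := (norm_E_le h₁).trans a₁
  have b₂ := (norm_E_le h₂).trans a₂
  have h3 : ‖E Z₁ + E Z₂ - E Z₁ * E Z₂‖ ≤ 3 * ‖Z₂ + Z₁‖ := by
    refine (norm_sub_le _ _).trans ?_
    have c1 := norm_add_le (E Z₁) (E Z₂)
    have c2 : ‖E Z₁ * E Z₂‖ ≤ ‖Z₂ + Z₁‖ := by
      rw [norm_mul]
      calc ‖E Z₁‖ * ‖E Z₂‖ ≤ 1 * ‖E Z₂‖ :=
            mul_le_mul_of_nonneg_right (norm_E_le_one h₁) (norm_nonneg _)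
        _ ≤ _ := by linarith
    linarith
  have h4 := mul_le_mul_of_nonneg_left h3 (norm_nonneg (Z₂ - Z₁))
  linarith

lemma Cf_sub {Z₁ Z₂ : ℂ} (h₁ : 0 ≤ Z₁.re) (h₂ : 0 ≤ Z₂.re)
    (hq : 0 ≤ Z₁.re * Z₂.re + Z₁.im * Z₂.im) :
    ‖Cf Z₂ - Cf Z₁‖ ≤ 48 * ‖Z₂ ^ 2 - Z₁ ^ 2‖ := by
  have e : Cf Z₂ - Cf Z₁ = 8 * (E Z₂ ^ 3 - E Z₁ ^ 3) - 12 * (E Z₂ ^ 2 - E Z₁ ^ 2) := by
    unfold Cf; ring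
  have h0 := E_pow_sub h₁ h₂ hq 0
  have h3 := E_pow_sub h₁ h₂ hq 1
  norm_num at h0 h3
  rw [e]
  refine (norm_sub_le _ _).trans ?_
  rw [norm_mul, norm_mul]
  norm_num
  linarith

lemma Qf_sub {Z₁ Z₂ : ℂ} (h₁ : 0 ≤ Z₁.re) (h₂ : 0 ≤ Z₂.re)
    (hq : 0 ≤ Z₁.re * Z₂.re + Z₁.im * Z₂.im) :
    ‖Qf Z₂ - Qf Z₁‖ ≤ 17136 * ‖Z₂ ^ 2 - Z₁ ^ 2‖ := by
  have e : Qf Z₂ - Qf Z₁ = 156 * (E Z₂ ^ 2 - E Z₁ ^ 2) - 776 * (E Z₂ ^ 3 - E Z₁ ^ 3) +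
      1488 * (E Z₂ ^ 4 - E Z₁ ^ 4) - 1248 * (E Z₂ ^ 5 - E Z₁ ^ 5) +
      384 * (E Z₂ ^ 6 - E Z₁ ^ 6) := by
    unfold Qf; ring
  have h2 := E_pow_sub h₁ h₂ hq 0
  have h3 := E_pow_sub h₁ h₂ hq 1
  have h4 := E_pow_sub h₁ h₂ hq 2
  have h5 := E_pow_sub h₁ h₂ hq 3
  have h6 := E_pow_sub h₁ h₂ hq 4
  norm_num at h2 h3 h4 h5 h6
  rw [e]
  refine (norm_add_le _ _).trans ?_
  have i1 := norm_sub_le (156 * (E Z₂ ^ 2 - E Z₁ ^ 2) - 776 * (E Z₂ ^ 3 - E Z₁ ^ 3) +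
      1488 * (E Z₂ ^ 4 - E Z₁ ^ 4)) (1248 * (E Z₂ ^ 5 - E Z₁ ^ 5))
  have i2 := norm_add_le (156 * (E Z₂ ^ 2 - E Z₁ ^ 2) - 776 * (E Z₂ ^ 3 - E Z₁ ^ 3))
      (1488 * (E Z₂ ^ 4 - E Z₁ ^ 4))
  have i3 := norm_sub_le (156 * (E Z₂ ^ 2 - E Z₁ ^ 2)) (776 * (E Z₂ ^ 3 - E Z₁ ^ 3))
  rw [norm_mul] at i1 i2 i3 ⊢
  rw [norm_mul 776] at i3
  norm_num at i1 i2 i3 ⊢
  linarith

lemma Sf_sub {Z₁ Z₂ : ℂ} (h₁ : 0 ≤ Z₁.re) (h₂ : 0 ≤ Z₂.re)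
    (hq : 0 ≤ Z₁.re * Z₂.re + Z₁.im * Z₂.im) :
    ‖Sf Z₂ - Sf Z₁‖ ≤ 36 * ‖Z₂ ^ 2 - Z₁ ^ 2‖ := by
  have e : Sf Z₂ - Sf Z₁ = (5 / 4) * (Z₂ ^ 2 - Z₁ ^ 2) - 6 * ((Z₂ - E Z₂) - (Z₁ - E Z₁)) +
      8 * (E Z₂ ^ 2 - E Z₁ ^ 2) := by
    unfold Sf; ring
  have h2 := E_pow_sub h₁ h₂ hq 0
  have h3 := Z_sub_E_sub h₁ h₂ hq
  norm_num at h2
  rw [e]
  refine (norm_add_le _ _).trans ?_
  have i1 := norm_sub_le ((5 / 4) * (Z₂ ^ 2 - Z₁ ^ 2)) (6 * ((Z₂ - E Z₂) - (Z₁ - E Z₁)))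
  rw [norm_mul] at i1 ⊢
  rw [norm_mul 6] at i1
  norm_num at i1 ⊢
  have := norm_nonneg (Z₂ ^ 2 - Z₁ ^ 2)
  linarith

/-- on closed quadrants the map is close to `Z ^ 2 / 4` -/
lemma F_sub {ε : ℝ} (hε : 0 < ε) (hε1 : ε ≤ 1 / 10 ^ 7) {Z₁ Z₂ : ℂ} (h₁ : 0 ≤ Z₁.re)
    (h₂ : 0 ≤ Z₂.re) (hq : 0 ≤ Z₁.re * Z₂.re + Z₁.im * Z₂.im) :
    ‖F ε Z₂ - F ε Z₁ - (Z₂ ^ 2 - Z₁ ^ 2) / 4‖ ≤ (1 / 8) * ‖Z₂ ^ 2 - Z₁ ^ 2‖ := by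
  have hC := Cf_sub h₁ h₂ hq
  have hQ := Qf_sub h₁ h₂ hq
  have hS := Sf_sub h₁ h₂ hq
  have e : F ε Z₂ - F ε Z₁ - (Z₂ ^ 2 - Z₁ ^ 2) / 4 = I * ε * (Cf Z₂ - Cf Z₁) +
      6 * (ε : ℂ) ^ 2 * (Qf Z₂ - Qf Z₁) - ((12 * ε * (Sf Z₂ - Sf Z₁).im : ℝ) : ℂ) := by
    unfold F
    rw [sub_im]
    push_cast
    ring
  have n1 : ‖I * (ε : ℂ) * (Cf Z₂ - Cf Z₁)‖ = ε * ‖Cf Z₂ - Cf Z₁‖ := by
    rw [norm_mul, norm_mul, norm_I, one_mul, norm_real, Real.norm_of_nonneg hε.le]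
  have n2 : ‖6 * (ε : ℂ) ^ 2 * (Qf Z₂ - Qf Z₁)‖ = 6 * ε ^ 2 * ‖Qf Z₂ - Qf Z₁‖ := by
    rw [norm_mul, norm_mul, norm_pow, norm_real, Real.norm_of_nonneg hε.le]
    norm_num
  have n3 : ‖((12 * ε * (Sf Z₂ - Sf Z₁).im : ℝ) : ℂ)‖ ≤ 12 * ε * ‖Sf Z₂ - Sf Z₁‖ := by
    rw [norm_real, Real.norm_eq_abs, abs_mul, abs_of_nonneg (by positivity : (0:ℝ) ≤ 12 * ε)]
    exact mul_le_mul_of_nonneg_left (abs_im_le_norm _) (by positivity)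
  rw [e]
  refine (norm_sub_le _ _).trans ?_
  have i1 := norm_add_le (I * (ε : ℂ) * (Cf Z₂ - Cf Z₁)) (6 * (ε : ℂ) ^ 2 * (Qf Z₂ - Qf Z₁))
  rw [n1, n2] at i1
  set N := ‖Z₂ ^ 2 - Z₁ ^ 2‖ with hN
  have hN0 : 0 ≤ N := norm_nonneg _
  have j1 : ε * ‖Cf Z₂ - Cf Z₁‖ ≤ (1 / 10 ^ 7) * (48 * N) :=
    mul_le_mul hε1 hC (norm_nonneg _) (by norm_num)
  have j2 : 6 * ε ^ 2 * ‖Qf Z₂ - Qf Z₁‖ ≤ 6 * (1 / 10 ^ 7) ^ 2 * (17136 * N) := by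
    apply mul_le_mul _ hQ (norm_nonneg _) (by norm_num)
    have := pow_le_pow_left₀ hε.le hε1 2
    linarith
  have j3 : 12 * ε * ‖Sf Z₂ - Sf Z₁‖ ≤ 12 * (1 / 10 ^ 7) * (36 * N) := by
    apply mul_le_mul _ hS (norm_nonneg _) (by norm_num)
    linarith
  norm_num at j1 j2 j3
  linarith

end Pool.Agent.H87.Harm
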