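import Mathlib
import Pool.Agent.H87.Harm.Lip

/-!
# The boundary values on the imaginary axis and the gap inequality
-/

set_option autoImplicit false

open Complex

namespace Pool.Agent.H87.Harm

lemma E_mk (y : ℝ) : E ((y : ℂ) * I) = ⟨y ^ 2 / (1 + y ^ 2), y / (1 + y ^ 2)⟩ := by
  have h0 : (1 + y ^ 2 : ℝ) ≠ 0 := by positivity
  have h1 : 1 + (y : ℂ) * I ≠ 0 := one_add_ne (by simp)
  unfold E
  rw [div_eq_iff h1]
  apply Complex.ext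
  · simp
    field_simp
    ring
  · simp
    field_simp
    ring

lemma pow2_mk (p r : ℝ) : (⟨p, r⟩ : ℂ) ^ 2 = ⟨p ^ 2 - r ^ 2, 2 * p * r⟩ := by
  apply Complex.ext
  · simp [pow_succ]
  · simp [pow_succ]; ring

lemma pow3_mk (p r : ℝ) : (⟨p, r⟩ : ℂ) ^ 3 = ⟨p ^ 3 - 3 * p * r ^ 2, 3 * p ^ 2 * r - r ^ 3⟩ := by
  rw [pow_succ, pow2_mk]
  apply Complex.ext
  · simp; ring
  · simp; ring

lemma pow4_mk (p r : ℝ) : (⟨p, r⟩ : ℂ) ^ 4 =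
    ⟨p ^ 4 - 6 * p ^ 2 * r ^ 2 + r ^ 4, 4 * p ^ 3 * r - 4 * p * r ^ 3⟩ := by
  rw [pow_succ, pow3_mk]
  apply Complex.ext
  · simp; ring
  · simp; ring

lemma pow5_mk (p r : ℝ) : (⟨p, r⟩ : ℂ) ^ 5 =
    ⟨p ^ 5 - 10 * p ^ 3 * r ^ 2 + 5 * p * r ^ 4, 5 * p ^ 4 * r - 10 * p ^ 2 * r ^ 3 + r ^ 5⟩ := by
  rw [pow_succ, pow4_mk]
  apply Complex.ext
  · simp; ring
  · simp; ring

lemma pow6_mk (p r : ℝ) : (⟨p, r⟩ : ℂ) ^ 6 =
    ⟨p ^ 6 - 15 * p ^ 4 * r ^ 2 + 15 * p ^ 2 * r ^ 4 - r ^ 6,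
      6 * p ^ 5 * r - 20 * p ^ 3 * r ^ 3 + 6 * p * r ^ 5⟩ := by
  rw [pow_succ, pow5_mk]
  apply Complex.ext
  · simp; ring
  · simp; ring

/-- the function `v = 1 / (1 + y²)` -/
noncomputable def vf (y : ℝ) : ℝ := 1 / (1 + y ^ 2)

lemma Cf_im (y : ℝ) : (Cf ((y : ℂ) * I)).im = -32 * y ^ 3 * vf y ^ 3 := by
  have h0 : (1 + y ^ 2 : ℝ) ≠ 0 := by positivity
  unfold Cf vf
  rw [E_mk, pow3_mk, pow2_mk]
  simp
  field_simp
  ring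

lemma Cf_re (y : ℝ) : (Cf ((y : ℂ) * I)).re =
    -12 * vf y + 48 * vf y ^ 2 - 32 * vf y ^ 3 - 4 := by
  have h0 : (1 + y ^ 2 : ℝ) ≠ 0 := by positivity
  unfold Cf vf
  rw [E_mk, pow3_mk, pow2_mk]
  simp
  field_simp
  ring

lemma Qf_im (y : ℝ) : (Qf ((y : ℂ) * I)).im = 64 * y ^ 3 * vf y ^ 3 *
    (2 - 3 * (1 - 8 * vf y + 8 * vf y ^ 2) * (3 - 8 * vf y)) := by
  have h0 : (1 + y ^ 2 : ℝ) ≠ 0 := by positivity
  unfold Qf vf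
  rw [E_mk, pow2_mk, pow3_mk, pow4_mk, pow5_mk, pow6_mk]
  simp
  field_simp
  ring

lemma Sf_im (y : ℝ) : (Sf ((y : ℂ) * I)).im = 2 * y ^ 3 * vf y * (8 * vf y - 3) := by
  have h0 : (1 + y ^ 2 : ℝ) ≠ 0 := by positivity
  have e1 : ((y : ℂ) * I) ^ 2 = ((-(y ^ 2) : ℝ) : ℂ) := by
    rw [mul_pow, I_sq]; push_cast; ring
  have t1 : ((5 / 4 : ℂ) * ((-(y ^ 2) : ℝ) : ℂ)).im = 0 := by
    rw [show (5 / 4 : ℂ) = ((5 / 4 : ℝ) : ℂ) by push_cast; ring, ← ofReal_mul, ofReal_im]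
  unfold Sf vf
  rw [E_mk, pow2_mk (y ^ 2 / (1 + y ^ 2)) (y / (1 + y ^ 2)), e1, add_im, sub_im, t1]
  simp
  field_simp
  ring

lemma E_conj (Z : ℂ) : E ((starRingEnd ℂ) Z) = (starRingEnd ℂ) (E Z) := by
  unfold E; simp

lemma Qf_conj (Z : ℂ) : Qf ((starRingEnd ℂ) Z) = (starRingEnd ℂ) (Qf Z) := by
  unfold Qf
  simp only [E_conj, map_add, map_sub, map_mul, map_pow, map_ofNat]

lemma Qf_re_neg (y : ℝ) : (Qf (((-y : ℝ) : ℂ) * I)).re = (Qf ((y : ℂ) * I)).re := by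
  have : (((-y : ℝ) : ℂ) * I) = (starRingEnd ℂ) ((y : ℂ) * I) := by simp
  rw [this, Qf_conj, conj_re]

lemma F_re (ε y : ℝ) : (F ε ((y : ℂ) * I)).re =
    -(y ^ 2) / 4 + 8 * ε * y ^ 3 * vf y * (4 * vf y ^ 2 - 24 * vf y + 9) +
      6 * ε ^ 2 * (Qf ((y : ℂ) * I)).re := by
  have e1 : (I * (ε : ℂ) * Cf ((y : ℂ) * I)).re = -(ε * (Cf ((y : ℂ) * I)).im) := by
    simp [mul_re]
  have e2 : (6 * (ε : ℂ) ^ 2 * Qf ((y : ℂ) * I)).re = 6 * ε ^ 2 * (Qf ((y : ℂ) * I)).re := by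
    rw [← ofReal_pow, show (6 : ℂ) = ((6 : ℝ) : ℂ) by norm_num, ← ofReal_mul, re_ofReal_mul]
  have e3 : (((y : ℂ) * I) ^ 2 / 4).re = -(y ^ 2) / 4 := by
    have : ((y : ℂ) * I) ^ 2 / 4 = ((-(y ^ 2) / 4 : ℝ) : ℂ) := by
      rw [mul_pow, I_sq]; push_cast; ring
    rw [this, ofReal_re]
  unfold F
  rw [sub_re, add_re, add_re, ofReal_re, e1, e2, e3, Cf_im, Sf_im]
  ring

lemma F_im (ε y : ℝ) : (F ε ((y : ℂ) * I)).im =
    ε * (-12 * vf y + 48 * vf y ^ 2 - 32 * vf y ^ 3 - 4) +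
      384 * ε ^ 2 * y ^ 3 * vf y ^ 3 *
        (2 - 3 * (1 - 8 * vf y + 8 * vf y ^ 2) * (3 - 8 * vf y)) := by
  have e1 : (I * (ε : ℂ) * Cf ((y : ℂ) * I)).im = ε * (Cf ((y : ℂ) * I)).re := by
    simp [mul_im]
  have e2 : (6 * (ε : ℂ) ^ 2 * Qf ((y : ℂ) * I)).im = 6 * ε ^ 2 * (Qf ((y : ℂ) * I)).im := by
    rw [← ofReal_pow, show (6 : ℂ) = ((6 : ℝ) : ℂ) by norm_num, ← ofReal_mul, im_ofReal_mul]
  have e3 : (((y : ℂ) * I) ^ 2 / 4).im = 0 := by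
    have : ((y : ℂ) * I) ^ 2 / 4 = ((-(y ^ 2) / 4 : ℝ) : ℂ) := by
      rw [mul_pow, I_sq]; push_cast; ring
    rw [this, ofReal_im]
  unfold F
  rw [sub_im, add_im, add_im, ofReal_im, e1, e2, e3, Cf_re, Qf_im]
  ring

lemma vf_neg (y : ℝ) : vf (-y) = vf y := by unfold vf; ring

lemma vf_pos (y : ℝ) : 0 < vf y := by unfold vf; positivity

lemma vf_le (y : ℝ) : vf y ≤ 1 := by
  unfold vf
  rw [div_le_one (by positivity)]
  nlinarith [sq_nonneg y]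

lemma vf_mul (y : ℝ) : vf y * (1 + y ^ 2) = 1 := by
  unfold vf
  have h0 : (1 + y ^ 2 : ℝ) ≠ 0 := by positivity
  field_simp

/-- bound for the main coefficient -/
lemma T_bound {η v w : ℝ} (hv0 : 0 < v) (hv1 : v ≤ 1) (hw0 : 0 < w) (hw1 : w ≤ 1)
    (hη : η ≤ 1 / 10 ^ 4) (h : |w - v| ≤ η * v) :
    5 * v ≤ 12 * v * (2 - 3 * (1 - 8 * v + 8 * v ^ 2) * (3 - 8 * v)) -
      w * (-12 + 48 * (v + w) - 32 * (v ^ 2 + v * w + w ^ 2)) * (4 * v ^ 2 - 24 * v + 9) := by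
  have id1 : 12 * v * (2 - 3 * (1 - 8 * v + 8 * v ^ 2) * (3 - 8 * v)) -
      w * (-12 + 48 * (v + w) - 32 * (v ^ 2 + v * w + w ^ 2)) * (4 * v ^ 2 - 24 * v + 9) =
      24 * v * (1 + 2 * v ^ 2 * (1 - 8 * v + 8 * v ^ 2)) -
      (w - v) * (4 * v ^ 2 - 24 * v + 9) *
        (-12 + 48 * (w + 2 * v) - 32 * (3 * v ^ 2 + 2 * v * w + w ^ 2)) := by ring
  have sos : 1 / 4 ≤ 1 + 2 * v ^ 2 * (1 - 8 * v + 8 * v ^ 2) := by
    nlinarith [sq_nonneg (4 * v ^ 2 - 2 * v - 1 / 2), sq_nonneg (v - 1 / 2)]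
  have b1 : |4 * v ^ 2 - 24 * v + 9| ≤ 11 := by
    rw [abs_le]; constructor <;> nlinarith
  have hvw : 0 ≤ v * w := by positivity
  have hvw1 : v * w ≤ 1 := by nlinarith
  have hvv : v ^ 2 ≤ 1 := by nlinarith
  have hww : w ^ 2 ≤ 1 := by nlinarith
  have b2 : |-12 + 48 * (w + 2 * v) - 32 * (3 * v ^ 2 + 2 * v * w + w ^ 2)| ≤ 348 := by
    rw [abs_le]; constructor <;> nlinarith [sq_nonneg v, sq_nonneg w]
  have b3 : |(w - v) * (4 * v ^ 2 - 24 * v + 9) *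
        (-12 + 48 * (w + 2 * v) - 32 * (3 * v ^ 2 + 2 * v * w + w ^ 2))| ≤ (η * v) * 11 * 348 := by
    rw [abs_mul, abs_mul]
    have c1 : |w - v| * |4 * v ^ 2 - 24 * v + 9| ≤ (η * v) * 11 :=
      mul_le_mul h b1 (abs_nonneg _) ((abs_nonneg _).trans h)
    exact mul_le_mul c1 b2 (abs_nonneg _) ((mul_nonneg (abs_nonneg _) (abs_nonneg _)).trans c1)
  have b4 := (abs_le.1 b3).2
  have b5 : η * v ≤ 1 / 10 ^ 4 * v := mul_le_mul_of_nonneg_right hη hv0.le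
  rw [id1]
  nlinarith

lemma mul_vf_le (y : ℝ) : y * vf y ≤ 1 / 2 := by
  unfold vf
  rw [mul_one_div, div_le_div_iff₀ (by positivity) (by norm_num)]
  nlinarith [sq_nonneg (y - 1)]

lemma chi_bound {v : ℝ} (h0 : 0 < v) (h1 : v ≤ 1) : |4 * v ^ 2 - 24 * v + 9| ≤ 11 := by
  rw [abs_le]; constructor <;> nlinarith

lemma m_bound {v w : ℝ} (hv0 : 0 < v) (hv1 : v ≤ 1) (hw0 : 0 < w) (hw1 : w ≤ 1) :
    |-12 + 48 * (v + w) - 32 * (v ^ 2 + v * w + w ^ 2)| ≤ 204 := by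
  have hvv : v ^ 2 ≤ 1 := by nlinarith
  have hww : w ^ 2 ≤ 1 := by nlinarith
  have hvwp : 0 ≤ v * w := by positivity
  have hvw1 : v * w ≤ 1 := by nlinarith
  rw [abs_le]; constructor <;> nlinarith [sq_nonneg v, sq_nonneg w]

lemma cube_le {y : ℝ} (hy : 0 < y) : y ^ 3 * vf y ≤ y := by
  have h := vf_mul y
  have hv := vf_pos y
  have h1 : y ^ 2 * vf y ≤ 1 := by linarith
  calc y ^ 3 * vf y = y * (y ^ 2 * vf y) := by ring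
    _ ≤ y * 1 := mul_le_mul_of_nonneg_left h1 hy.le
    _ = y := mul_one y

lemma D_bound {ε A B χv χw D δ : ℝ} (hε : 0 < ε) (hε2 : ε ^ 2 ≤ 1 / 10 ^ 14) (hA0 : 0 < A)
    (hB0 : 0 < B) (bv : |χv| ≤ 11) (bw : |χw| ≤ 11) (hδ1 : |δ| ≤ 102816 * ε ^ 2 * |D|)
    (hrel : D = 32 * ε * (A * χv + B * χw) + 4 * δ) : |D| ≤ 400 * ε * (A + B) := by
  have h1 : |D| ≤ 32 * ε * (A * 11 + B * 11) + 4 * (102816 * ε ^ 2 * |D|) := by
    have t1 : |A * χv| ≤ A * 11 := by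
      rw [abs_mul, abs_of_pos hA0]; exact mul_le_mul_of_nonneg_left bv hA0.le
    have t2 : |B * χw| ≤ B * 11 := by
      rw [abs_mul, abs_of_pos hB0]; exact mul_le_mul_of_nonneg_left bw hB0.le
    have t3 : |A * χv + B * χw| ≤ A * 11 + B * 11 := (abs_add_le _ _).trans (add_le_add t1 t2)
    calc |D| = |32 * ε * (A * χv + B * χw) + 4 * δ| := by rw [← hrel]
      _ ≤ |32 * ε * (A * χv + B * χw)| + |4 * δ| := abs_add_le _ _
      _ = 32 * ε * |A * χv + B * χw| + 4 * |δ| := by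
          rw [abs_mul, abs_of_pos (by positivity : (0:ℝ) < 32 * ε), abs_mul,
            abs_of_pos (by norm_num : (0:ℝ) < 4)]
      _ ≤ _ := add_le_add (mul_le_mul_of_nonneg_left t3 (by positivity))
          (mul_le_mul_of_nonneg_left hδ1 (by norm_num))
  have h2 : ε ^ 2 * |D| ≤ 1 / 10 ^ 14 * |D| := mul_le_mul_of_nonneg_right hε2 (abs_nonneg _)
  have h3 : 0 ≤ ε * (A + B) := by positivity
  have h4 := abs_nonneg D
  norm_num at h2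
  linarith

lemma err_bound {ε A B v w m δ D : ℝ} (hε : 0 < ε) (hε2 : ε ^ 2 ≤ 1 / 10 ^ 14) (hA0 : 0 < A)
    (hB0 : 0 < B) (hv0 : 0 < v) (hw0 : 0 < w) (hvw2 : w ≤ 2 * v) (hvw3 : v ≤ 2 * w)
    (hmb : |m| ≤ 204) (hδ1 : |δ| ≤ 102816 * ε ^ 2 * |D|) (hDle : |D| ≤ 400 * ε * (A + B)) :
    |4 * ε * v * w * m * δ| ≤ ε ^ 2 * (A * v ^ 2 + B * w ^ 2) := by
  have e0 : |4 * ε * v * w * m * δ| = 4 * ε * v * w * (|m| * |δ|) := by
    rw [abs_mul, abs_mul, abs_mul, abs_mul, abs_mul, abs_of_pos hε, abs_of_pos hv0,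
      abs_of_pos hw0, abs_of_pos (by norm_num : (0:ℝ) < 4)]
    ring
  have e1 : |m| * |δ| ≤ 204 * (102816 * ε ^ 2 * (400 * ε * (A + B))) := by
    apply mul_le_mul hmb _ (abs_nonneg _) (by norm_num)
    exact hδ1.trans (mul_le_mul_of_nonneg_left hDle (by positivity))
  have e2 : 4 * ε * v * w * (|m| * |δ|) ≤
      4 * ε * v * w * (204 * (102816 * ε ^ 2 * (400 * ε * (A + B)))) :=
    mul_le_mul_of_nonneg_left e1 (by positivity)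
  have e3 : 4 * ε * v * w * (204 * (102816 * ε ^ 2 * (400 * ε * (A + B)))) =
      ((4 * 204 * 102816 * 400) * ε ^ 2) * ε ^ 2 * (A * (v * w) + B * (v * w)) := by ring
  have e4 : A * (v * w) ≤ A * (2 * v ^ 2) := by
    apply mul_le_mul_of_nonneg_left _ hA0.le
    calc v * w ≤ v * (2 * v) := mul_le_mul_of_nonneg_left hvw2 hv0.le
      _ = 2 * v ^ 2 := by ring
  have e5 : B * (v * w) ≤ B * (2 * w ^ 2) := by
    apply mul_le_mul_of_nonneg_left _ hB0.le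
    calc v * w ≤ (2 * w) * w := mul_le_mul_of_nonneg_right hvw3 hw0.le
      _ = 2 * w ^ 2 := by ring
  have e6 : (4 * 204 * 102816 * 400) * ε ^ 2 ≤ 1 / 2 := by
    norm_num at hε2 ⊢; linarith
  have e7 : 0 ≤ A * (v * w) + B * (v * w) := by positivity
  rw [e0]
  refine e2.trans ?_
  rw [e3]
  have e8 : ((4 * 204 * 102816 * 400) * ε ^ 2) * ε ^ 2 * (A * (v * w) + B * (v * w)) ≤
      1 / 2 * ε ^ 2 * (A * (v * w) + B * (v * w)) :=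
    mul_le_mul_of_nonneg_right (mul_le_mul_of_nonneg_right e6 (by positivity)) e7
  refine e8.trans ?_
  have e9 : A * (v * w) + B * (v * w) ≤ 2 * (A * v ^ 2 + B * w ^ 2) := by linarith
  have e10 := mul_le_mul_of_nonneg_left e9 (by positivity : (0:ℝ) ≤ 1 / 2 * ε ^ 2)
  refine e10.trans (le_of_eq ?_)
  ring

lemma wv_bound {ε v w D s : ℝ} (hε : 0 < ε) (hv0 : 0 < v) (hw0 : 0 < w) (hwv : w - v = D * v * w)
    (hDab : |D| ≤ 400 * ε * s) (hsw : s * w ≤ 3 / 2) : |w - v| ≤ (600 * ε) * v := by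
  rw [hwv, abs_mul, abs_mul, abs_of_pos hv0, abs_of_pos hw0]
  calc |D| * v * w ≤ 400 * ε * s * v * w :=
        mul_le_mul_of_nonneg_right (mul_le_mul_of_nonneg_right hDab hv0.le) hw0.le
    _ = 400 * ε * v * (s * w) := by ring
    _ ≤ 400 * ε * v * (3 / 2) := mul_le_mul_of_nonneg_left hsw (by positivity)
    _ = (600 * ε) * v := by ring

/-- the final combination -/
lemma gap_core {ε A B v w D δ C₁ C₂ : ℝ} (hε : 0 < ε) (hε1 : ε ≤ 1 / 10 ^ 7) (hA0 : 0 < A)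
    (hB0 : 0 < B) (hv0 : 0 < v) (hv1 : v ≤ 1) (hw0 : 0 < w) (hw1 : w ≤ 1)
    (hC₁ : C₁ = A * v ^ 2) (hC₂ : C₂ = B * w ^ 2)
    (hδ1 : |δ| ≤ 102816 * ε ^ 2 * |D|) (hDle : |D| ≤ 400 * ε * (A + B))
    (hrel : D = 32 * ε * (A * (4 * v ^ 2 - 24 * v + 9) + B * (4 * w ^ 2 - 24 * w + 9)) + 4 * δ)
    (hwv : w - v = D * v * w) (hwv1 : |w - v| ≤ (600 * ε) * v) (hwv2 : |v - w| ≤ (600 * ε) * w) :
    ε * (-12 * w + 48 * w ^ 2 - 32 * w ^ 3 - 4) -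
      384 * ε ^ 2 * C₂ * (2 - 3 * (1 - 8 * w + 8 * w ^ 2) * (3 - 8 * w)) ≤
    ε * (-12 * v + 48 * v ^ 2 - 32 * v ^ 3 - 4) +
      384 * ε ^ 2 * C₁ * (2 - 3 * (1 - 8 * v + 8 * v ^ 2) * (3 - 8 * v)) := by
  have hη : 600 * ε ≤ 1 / 10 ^ 4 := by norm_num at hε1 ⊢; linarith
  have hε2 : ε ^ 2 ≤ 1 / 10 ^ 14 := by
    have := pow_le_pow_left₀ hε.le hε1 2
    norm_num at this ⊢
    linarith
  have T1 := T_bound hv0 hv1 hw0 hw1 hη hwv1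
  have T2 := T_bound hw0 hw1 hv0 hv1 hη hwv2
  have hmb := m_bound hv0 hv1 hw0 hw1
  have hvw2 : w ≤ 2 * v := by
    have h1 := (abs_le.1 hwv1).2
    have h2 : 600 * ε * v ≤ 1 / 10 ^ 4 * v := mul_le_mul_of_nonneg_right hη hv0.le
    linarith
  have hvw3 : v ≤ 2 * w := by
    have h1 := (abs_le.1 hwv2).2
    have h2 : 600 * ε * w ≤ 1 / 10 ^ 4 * w := mul_le_mul_of_nonneg_right hη hw0.le
    linarith
  have herr := err_bound hε hε2 hA0 hB0 hv0 hw0 hvw2 hvw3 hmb hδ1 hDle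
  have herr' := (abs_le.1 herr).2
  have m1 := mul_le_mul_of_nonneg_left T1 (mul_pos hA0 hv0).le
  have m2 := mul_le_mul_of_nonneg_left T2 (mul_pos hB0 hw0).le
  have m3 := mul_le_mul_of_nonneg_left (add_le_add m1 m2) (by positivity : (0:ℝ) ≤ 32 * ε ^ 2)
  have m4 : 0 ≤ ε ^ 2 * (A * v ^ 2 + B * w ^ 2) := by positivity
  have m5 : 32 * ε ^ 2 * (A * v * (5 * v) + B * w * (5 * w)) =
      160 * (ε ^ 2 * (A * v ^ 2 + B * w ^ 2)) := by ring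
  rw [m5] at m3
  have key : (ε * (-12 * v + 48 * v ^ 2 - 32 * v ^ 3 - 4) +
      384 * ε ^ 2 * C₁ * (2 - 3 * (1 - 8 * v + 8 * v ^ 2) * (3 - 8 * v))) -
      (ε * (-12 * w + 48 * w ^ 2 - 32 * w ^ 3 - 4) -
      384 * ε ^ 2 * C₂ * (2 - 3 * (1 - 8 * w + 8 * w ^ 2) * (3 - 8 * w))) =
      32 * ε ^ 2 * (A * v * (12 * v * (2 - 3 * (1 - 8 * v + 8 * v ^ 2) * (3 - 8 * v)) -
      w * (-12 + 48 * (v + w) - 32 * (v ^ 2 + v * w + w ^ 2)) * (4 * v ^ 2 - 24 * v + 9)) +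
      B * w * (12 * w * (2 - 3 * (1 - 8 * w + 8 * w ^ 2) * (3 - 8 * w)) -
      v * (-12 + 48 * (w + v) - 32 * (w ^ 2 + w * v + v ^ 2)) * (4 * w ^ 2 - 24 * w + 9))) -
        4 * ε * v * w * (-12 + 48 * (v + w) - 32 * (v ^ 2 + v * w + w ^ 2)) * δ := by
    rw [hC₁, hC₂]
    linear_combination (-(ε * v * w * (-12 + 48 * (v + w) - 32 * (v ^ 2 + v * w + w ^ 2)))) * hrel -
      ε * (-12 + 48 * (v + w) - 32 * (v ^ 2 + v * w + w ^ 2)) * hwv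
  linarith

/-- the gap inequality in real variables -/
lemma gap_real {ε a b QA QB : ℝ} (hε : 0 < ε) (hε1 : ε ≤ 1 / 10 ^ 7) (ha : 0 < a) (hb : 0 < b)
    (hQ : |QA - QB| ≤ 17136 * |a ^ 2 - b ^ 2|)
    (hX : -(a ^ 2) / 4 + 8 * ε * a ^ 3 * vf a * (4 * vf a ^ 2 - 24 * vf a + 9) + 6 * ε ^ 2 * QA =
      -(b ^ 2) / 4 - 8 * ε * b ^ 3 * vf b * (4 * vf b ^ 2 - 24 * vf b + 9) + 6 * ε ^ 2 * QB) :
    ε * (-12 * vf b + 48 * vf b ^ 2 - 32 * vf b ^ 3 - 4) -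
      384 * ε ^ 2 * (b ^ 3 * vf b ^ 3) *
        (2 - 3 * (1 - 8 * vf b + 8 * vf b ^ 2) * (3 - 8 * vf b)) ≤
    ε * (-12 * vf a + 48 * vf a ^ 2 - 32 * vf a ^ 3 - 4) +
      384 * ε ^ 2 * (a ^ 3 * vf a ^ 3) *
        (2 - 3 * (1 - 8 * vf a + 8 * vf a ^ 2) * (3 - 8 * vf a)) := by
  have hv0 := vf_pos a
  have hw0 := vf_pos b
  have hA0 : 0 < a ^ 3 * vf a := by positivity
  have hB0 : 0 < b ^ 3 * vf b := by positivity
  have hδ1 : |6 * ε ^ 2 * (QA - QB)| ≤ 102816 * ε ^ 2 * |a ^ 2 - b ^ 2| := by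
    rw [abs_mul, abs_of_nonneg (by positivity : (0:ℝ) ≤ 6 * ε ^ 2)]
    have := mul_le_mul_of_nonneg_left hQ (by positivity : (0:ℝ) ≤ 6 * ε ^ 2)
    linarith
  have hrel : a ^ 2 - b ^ 2 = 32 * ε * (a ^ 3 * vf a * (4 * vf a ^ 2 - 24 * vf a + 9) +
      b ^ 3 * vf b * (4 * vf b ^ 2 - 24 * vf b + 9)) + 4 * (6 * ε ^ 2 * (QA - QB)) := by
    linear_combination (-4 : ℝ) * hX
  have hε2 : ε ^ 2 ≤ 1 / 10 ^ 14 := by
    have := pow_le_pow_left₀ hε.le hε1 2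
    norm_num at this ⊢
    linarith
  have hDle := D_bound hε hε2 hA0 hB0 (chi_bound hv0 (vf_le a)) (chi_bound hw0 (vf_le b)) hδ1 hrel
  have hDab : |a ^ 2 - b ^ 2| ≤ 400 * ε * (a + b) := hDle.trans
    (mul_le_mul_of_nonneg_left (add_le_add (cube_le ha) (cube_le hb)) (by positivity))
  have hab : |a - b| ≤ 400 * ε := by
    have h1 : |a ^ 2 - b ^ 2| = |a - b| * (a + b) := by
      rw [show a ^ 2 - b ^ 2 = (a - b) * (a + b) by ring, abs_mul, abs_of_pos (add_pos ha hb)]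
    rw [h1] at hDab
    exact le_of_mul_le_mul_right hDab (add_pos ha hb)
  have hab1 := (abs_le.1 hab).1
  have hab2 := (abs_le.1 hab).2
  have h400 : 400 * ε ≤ 1 / 2 := by
    norm_num at hε1 ⊢; linarith
  have hav := mul_vf_le a
  have hbw := mul_vf_le b
  have haw : (a + b) * vf b ≤ 3 / 2 := by
    calc (a + b) * vf b ≤ (2 * b + 1 / 2) * vf b :=
          mul_le_mul_of_nonneg_right (by linarith) hw0.le
      _ = 2 * (b * vf b) + vf b / 2 := by ring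
      _ ≤ 3 / 2 := by linarith [vf_le b]
  have hbv : (a + b) * vf a ≤ 3 / 2 := by
    calc (a + b) * vf a ≤ (2 * a + 1 / 2) * vf a :=
          mul_le_mul_of_nonneg_right (by linarith) hv0.le
      _ = 2 * (a * vf a) + vf a / 2 := by ring
      _ ≤ 3 / 2 := by linarith [vf_le a]
  have hwv : vf b - vf a = (a ^ 2 - b ^ 2) * vf a * vf b := by
    linear_combination (-vf b) * vf_mul a + vf a * vf_mul b
  have hwv1 := wv_bound hε hv0 hw0 hwv hDab haw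
  have hwv' : vf a - vf b = (b ^ 2 - a ^ 2) * vf b * vf a := by
    linear_combination (vf b) * vf_mul a - vf a * vf_mul b
  have hDab' : |b ^ 2 - a ^ 2| ≤ 400 * ε * (a + b) := by
    rw [abs_sub_comm]; exact hDab
  have hwv2 := wv_bound hε hw0 hv0 hwv' hDab' hbv
  exact gap_core hε hε1 hA0 hB0 hv0 (vf_le a) hw0 (vf_le b) (by ring) (by ring) hδ1 hDle hrel hwv
    hwv1 hwv2

/-- the gap inequality -/
lemma gap {ε a b : ℝ} (hε : 0 < ε) (hε1 : ε ≤ 1 / 10 ^ 7) (ha : 0 < a) (hb : 0 < b)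
    (hX : (F ε ((a : ℂ) * I)).re = (F ε (((-b : ℝ) : ℂ) * I)).re) :
    (F ε (((-b : ℝ) : ℂ) * I)).im ≤ (F ε ((a : ℂ) * I)).im := by
  rw [F_im, F_im, vf_neg]
  rw [F_re, F_re, vf_neg, Qf_re_neg] at hX
  have hQ : |(Qf ((a : ℂ) * I)).re - (Qf ((b : ℂ) * I)).re| ≤ 17136 * |a ^ 2 - b ^ 2| := by
    have h := Qf_sub (Z₁ := (b : ℂ) * I) (Z₂ := (a : ℂ) * I) (by simp) (by simp)
      (by simp; positivity)
    rw [← sub_re]
    refine (abs_re_le_norm _).trans (h.trans ?_)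
    have e : ((a : ℂ) * I) ^ 2 - ((b : ℂ) * I) ^ 2 = ((-(a ^ 2 - b ^ 2) : ℝ) : ℂ) := by
      rw [mul_pow, mul_pow, I_sq]; push_cast; ring
    rw [e, norm_real, Real.norm_eq_abs, abs_neg]
  have h := gap_real hε hε1 ha hb hQ (by linarith)
  linarith

end Pool.Agent.H87.Harm
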