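import Mathlib
import Pool.Agent.H87.Harm.Gap

/-!
# Injectivity of the harmonic map on the right half plane
-/

set_option autoImplicit false

open Complex Filter

namespace Pool.Agent.H87.Harm

/-- the boundary of the closed first quadrant -/
noncomputable def bd (t : ℝ) : ℂ := ((max t 0 : ℝ) : ℂ) + ((max (-t) 0 : ℝ) : ℂ) * I

lemma bd_re (t : ℝ) : (bd t).re = max t 0 := by
  unfold bd; rw [add_re, re_ofReal_mul, ofReal_re, I_re, mul_zero, add_zero]

lemma bd_im (t : ℝ) : (bd t).im = max (-t) 0 := by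
  unfold bd; rw [add_im, im_ofReal_mul, ofReal_im, I_im, mul_one, zero_add]

lemma bd_of_nonneg {t : ℝ} (h : 0 ≤ t) : bd t = (t : ℂ) := by
  unfold bd
  rw [max_eq_left h, max_eq_right (by linarith)]; simp

lemma bd_of_nonpos {t : ℝ} (h : t ≤ 0) : bd t = ((-t : ℝ) : ℂ) * I := by
  unfold bd
  rw [max_eq_right h, max_eq_left (by linarith)]; simp

lemma continuous_bd : Continuous bd := by
  unfold bd; fun_prop

lemma bd_sq (t : ℝ) : (bd t) ^ 2 = ((t * |t| : ℝ) : ℂ) := by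
  rcases le_total 0 t with h | h
  · rw [bd_of_nonneg h, abs_of_nonneg h]; push_cast; ring
  · rw [bd_of_nonpos h, abs_of_nonpos h, mul_pow, I_sq]; push_cast; ring

lemma E_zero : E 0 = 0 := by unfold E; simp

lemma F_zero (ε : ℝ) : F ε 0 = 0 := by
  unfold F Cf Qf Sf
  rw [E_zero]; simp

lemma continuousOn_E : ContinuousOn E {Z | 0 ≤ Z.re} := by
  unfold E
  apply ContinuousOn.div (by fun_prop) (by fun_prop)
  intro Z hZ
  exact one_add_ne hZ

lemma continuousOn_F (ε : ℝ) : ContinuousOn (F ε) {Z | 0 ≤ Z.re} := by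
  have h := continuousOn_E
  have hS : ContinuousOn Sf {Z | 0 ≤ Z.re} := by
    unfold Sf
    fun_prop
  have hS' : ContinuousOn (fun Z => ((12 * ε * (Sf Z).im : ℝ) : ℂ)) {Z | 0 ≤ Z.re} := by
    have h1 : ContinuousOn (fun Z => (Sf Z).im) {Z | 0 ≤ Z.re} :=
      Complex.continuous_im.comp_continuousOn hS
    have h2 : ContinuousOn (fun Z => 12 * ε * (Sf Z).im) {Z | 0 ≤ Z.re} := by fun_prop
    exact Complex.continuous_ofReal.comp_continuousOn h2
  unfold F Cf Qf
  fun_prop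

lemma E_conj' (Z : ℂ) : E ((starRingEnd ℂ) Z) = (starRingEnd ℂ) (E Z) := E_conj Z

section

variable {ε : ℝ}

lemma F_sub' (hε : 0 < ε) (hε1 : ε ≤ 1 / 10 ^ 7) {Z : ℂ} (h : 0 ≤ Z.re) :
    ‖F ε Z - Z ^ 2 / 4‖ ≤ (1 / 8) * ‖Z ^ 2‖ := by
  have := F_sub hε hε1 (Z₁ := 0) (Z₂ := Z) (by simp) h (by simp)
  rw [F_zero] at this
  simpa using this

/-- every real number is the real part of a boundary value (upper quadrant) -/
lemma exists_bd (hε : 0 < ε) (hε1 : ε ≤ 1 / 10 ^ 7) (c : ℂ → ℂ) (hc : Continuous c)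
    (hcre : ∀ Z, (c Z).re = Z.re) (hcsq : ∀ t : ℝ, (c (bd t)) ^ 2 = ((t * |t| : ℝ) : ℂ)) (x : ℝ) :
    ∃ t : ℝ, (F ε (c (bd t))).re = x := by
  have hre : ∀ t, 0 ≤ (c (bd t)).re := by
    intro t; rw [hcre, bd_re]; exact le_max_right _ _
  have hcont : Continuous (fun t => (F ε (c (bd t))).re) := by
    apply Complex.continuous_re.comp
    rw [← continuousOn_univ]
    exact (continuousOn_F ε).comp (hc.comp continuous_bd).continuousOn (fun t _ => hre t)
  have key : ∀ t, |(F ε (c (bd t))).re - t * |t| / 4| ≤ (1 / 8) * (|t| * |t|) := by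
    intro t
    have h1 := F_sub' hε hε1 (hre t)
    rw [hcsq] at h1
    have h2 : (F ε (c (bd t)) - ((t * |t| : ℝ) : ℂ) / 4).re = (F ε (c (bd t))).re - t * |t| / 4 := by
      rw [sub_re, show ((t * |t| : ℝ) : ℂ) / 4 = ((t * |t| / 4 : ℝ) : ℂ) by push_cast; ring,
        ofReal_re]
    rw [← h2]
    refine (abs_re_le_norm _).trans (h1.trans ?_)
    rw [norm_real, Real.norm_eq_abs, abs_mul, abs_abs]
  have htop : Tendsto (fun t => (F ε (c (bd t))).re) atTop atTop := by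
    apply tendsto_atTop_mono' atTop (f₁ := fun t : ℝ => t * (1 / 8))
    · filter_upwards [eventually_ge_atTop (1 : ℝ)] with t ht
      have h1 := (abs_le.1 (key t)).1
      rw [abs_of_nonneg (by linarith : (0:ℝ) ≤ t)] at h1
      nlinarith
    · exact tendsto_id.atTop_mul_const (by norm_num)
  have hbot : Tendsto (fun t => (F ε (c (bd t))).re) atBot atBot := by
    have h8 : Tendsto (fun t : ℝ => t * (1 / 8)) atBot atBot :=
      tendsto_id.atBot_mul_const (by norm_num)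
    refine tendsto_atBot_mono' atBot ?_ h8
    filter_upwards [eventually_le_atBot (-1 : ℝ)] with t ht
    have h1 := (abs_le.1 (key t)).2
    rw [abs_of_nonpos (by linarith : t ≤ 0)] at h1
    nlinarith
  exact hcont.surjective htop hbot x

/-- if the difference of values is purely imaginary and the squares differ by `d` with
`0 < d.im`, then the imaginary part goes up -/
lemma im_lt {P d : ℂ} (h : ‖P - d / 4‖ ≤ (1 / 8) * ‖d‖) (hP : P.re = 0) (hd : 0 < d.im) :
    0 < P.im := by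
  by_contra hneg
  rw [not_lt] at hneg
  have h1 : ‖P - d / 4‖ ^ 2 ≤ ((1 / 8) * ‖d‖) ^ 2 := pow_le_pow_left₀ (norm_nonneg _) h 2
  rw [mul_pow, ← normSq_eq_norm_sq, ← normSq_eq_norm_sq, normSq_apply, normSq_apply] at h1
  have e1 : (P - d / 4).re = -(d.re / 4) := by
    rw [sub_re, hP]; simp
  have e2 : (P - d / 4).im = P.im - d.im / 4 := by
    rw [sub_im]; simp
  rw [e1, e2] at h1
  nlinarith [mul_nonneg (neg_nonneg.2 hneg) hd.le, mul_self_nonneg d.re, mul_pos hd hd,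
    mul_self_nonneg P.im]

lemma im_eq_zero {P : ℂ} {d : ℝ} (h : ‖P - (d : ℂ) / 4‖ ≤ (1 / 8) * ‖(d : ℂ)‖) (hP : P.re = 0) :
    d = 0 ∧ P.im = 0 := by
  have h1 : ‖P - (d : ℂ) / 4‖ ^ 2 ≤ ((1 / 8) * ‖(d : ℂ)‖) ^ 2 :=
    pow_le_pow_left₀ (norm_nonneg _) h 2
  rw [mul_pow, ← normSq_eq_norm_sq, ← normSq_eq_norm_sq, normSq_apply, normSq_apply] at h1
  have e1 : (P - (d : ℂ) / 4).re = -(d / 4) := by
    rw [sub_re, hP]; simp
  have e2 : (P - (d : ℂ) / 4).im = P.im := by
    rw [sub_im]; simp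
  rw [e1, e2, ofReal_re, ofReal_im] at h1
  have hd : d * d ≤ 0 := by nlinarith [mul_self_nonneg P.im]
  have hd0 : d = 0 := by nlinarith [mul_self_nonneg d]
  refine ⟨hd0, ?_⟩
  rw [hd0] at h1
  nlinarith [mul_self_nonneg P.im]

/-- injectivity on the open right half plane -/
theorem F_injOn (hε : 0 < ε) (hε1 : ε ≤ 1 / 10 ^ 7) : Set.InjOn (F ε) {Z | 0 < Z.re} := by
  -- points in a common closed quadrant
  have same : ∀ Z₁ Z₂ : ℂ, 0 < Z₁.re → 0 < Z₂.re → 0 ≤ Z₁.im * Z₂.im → F ε Z₁ = F ε Z₂ →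
      Z₁ = Z₂ := by
    intro Z₁ Z₂ h₁ h₂ him hF
    have h := F_sub hε hε1 h₁.le h₂.le (by positivity)
    rw [hF, sub_self, zero_sub, norm_neg, norm_div] at h
    norm_num at h
    have h0 : ‖Z₂ ^ 2 - Z₁ ^ 2‖ = 0 := by
      have := norm_nonneg (Z₂ ^ 2 - Z₁ ^ 2)
      linarith
    rw [norm_eq_zero] at h0
    have h3 : (Z₂ - Z₁) * (Z₂ + Z₁) = 0 := by rw [← h0]; ring
    rcases mul_eq_zero.1 h3 with h4 | h4
    · exact (sub_eq_zero.1 h4).symm
    · exfalso
      have := congrArg Complex.re h4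
      rw [add_re, zero_re] at this
      linarith
  -- points in opposite quadrants
  have opp : ∀ Z₁ Z₂ : ℂ, 0 < Z₁.re → 0 < Z₂.re → 0 < Z₁.im → Z₂.im < 0 → F ε Z₁ ≠ F ε Z₂ := by
    intro Z₁ Z₂ h₁ h₂ i₁ i₂ hF
    obtain ⟨t₁, ht₁⟩ := exists_bd hε hε1 id continuous_id (fun _ => rfl) bd_sq (F ε Z₁).re
    obtain ⟨t₂, ht₂⟩ := exists_bd hε hε1 (starRingEnd ℂ) Complex.continuous_conj
      (fun Z => conj_re Z) (fun t => by rw [← map_pow, bd_sq, conj_ofReal]) (F ε Z₁).re
    simp only [id] at ht₁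
    have r₁ : 0 ≤ (bd t₁).re := by rw [bd_re]; exact le_max_right _ _
    have r₂ : 0 ≤ (bd t₂).re := by rw [bd_re]; exact le_max_right _ _
    have m₁ : 0 ≤ (bd t₁).im := by rw [bd_im]; exact le_max_right _ _
    have m₂ : 0 ≤ (bd t₂).im := by rw [bd_im]; exact le_max_right _ _
    have sq₂ : ((starRingEnd ℂ) (bd t₂)) ^ 2 = ((t₂ * |t₂| : ℝ) : ℂ) := by
      rw [← map_pow, bd_sq, conj_ofReal]
    -- upper comparison
    have u : (F ε (bd t₁)).im < (F ε Z₁).im := by
      have h := F_sub hε hε1 r₁ h₁.le (by positivity)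
      rw [bd_sq] at h
      have h3 := im_lt h (by rw [sub_re, ht₁, sub_self]) (by
        rw [sub_im, ofReal_im, sub_zero, pow_two, mul_im]; nlinarith)
      rw [sub_im] at h3
      linarith
    -- lower comparison
    have l : (F ε Z₂).im < (F ε ((starRingEnd ℂ) (bd t₂))).im := by
      have h := F_sub hε hε1 (Z₁ := Z₂) (Z₂ := (starRingEnd ℂ) (bd t₂)) h₂.le
        (by rw [conj_re]; exact r₂)
        (by rw [conj_re, conj_im]; nlinarith [mul_nonneg h₂.le r₂, mul_nonneg (neg_nonneg.2 i₂.le) m₂])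
      rw [sq₂] at h
      have h3 := im_lt h (by rw [sub_re, ht₂, hF, sub_self]) (by
        rw [sub_im, ofReal_im, zero_sub, pow_two, mul_im]; nlinarith)
      rw [sub_im] at h3
      linarith
    rw [← hF] at l
    have lt : (F ε (bd t₁)).im < (F ε ((starRingEnd ℂ) (bd t₂))).im := u.trans l
    have eqre : (F ε (bd t₁)).re = (F ε ((starRingEnd ℂ) (bd t₂))).re := by rw [ht₁, ht₂]
    rcases le_or_gt 0 t₁ with c₁ | c₁
    · -- first point real
      have m0 : (bd t₁).im = 0 := by rw [bd_of_nonneg c₁, ofReal_im]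
      have h := F_sub hε hε1 (Z₁ := bd t₁) (Z₂ := (starRingEnd ℂ) (bd t₂)) r₁
        (by rw [conj_re]; exact r₂) (by rw [m0, conj_re]; simp; positivity)
      rw [sq₂, bd_sq, ← ofReal_sub] at h
      have := (im_eq_zero h (by rw [sub_re, eqre, sub_self])).2
      rw [sub_im] at this
      linarith
    · rcases le_or_gt 0 t₂ with c₂ | c₂
      · -- second point real
        have m0 : (starRingEnd ℂ) (bd t₂) = bd t₂ := by rw [bd_of_nonneg c₂, conj_ofReal]
        have m1 : (bd t₂).im = 0 := by rw [bd_of_nonneg c₂, ofReal_im]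
        rw [m0] at lt eqre
        have h := F_sub hε hε1 (Z₁ := bd t₁) (Z₂ := bd t₂) r₁ r₂ (by rw [m1]; simp; positivity)
        rw [bd_sq, bd_sq, ← ofReal_sub] at h
        have := (im_eq_zero h (by rw [sub_re, eqre, sub_self])).2
        rw [sub_im] at this
        linarith
      · -- both on the imaginary axis
        have e₁ : bd t₁ = ((-t₁ : ℝ) : ℂ) * I := bd_of_nonpos c₁.le
        have e₂ : (starRingEnd ℂ) (bd t₂) = ((-(-t₂) : ℝ) : ℂ) * I := by
          rw [bd_of_nonpos c₂.le]; simp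
        rw [e₁, e₂] at lt eqre
        have := gap hε hε1 (a := -t₁) (b := -t₂) (by linarith) (by linarith) eqre
        linarith
  intro Z₁ h₁ Z₂ h₂ hF
  change 0 < Z₁.re at h₁
  change 0 < Z₂.re at h₂
  rcases le_or_gt 0 (Z₁.im * Z₂.im) with h | h
  · exact same Z₁ Z₂ h₁ h₂ h hF
  · exfalso
    rcases lt_trichotomy Z₁.im 0 with i | i | i
    · have i2 : 0 < Z₂.im := by nlinarith
      exact opp Z₂ Z₁ h₂ h₁ i2 i hF.symm
    · rw [i] at h; simp at h
    · have i2 : Z₂.im < 0 := by nlinarith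
      exact opp Z₁ Z₂ h₁ h₂ i i2 hF

end

end Pool.Agent.H87.Harm
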