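import Mathlib
import Pool.Agent.H87.Harm.Inj

/-!
# A univalent harmonic map of the disk with `b₂ = 0` and `|a₂| > 2`
-/

set_option autoImplicit false

open Complex

namespace Pool.Agent.H87.Harm

/-- `z ^ 3 (3 + 2 z) / (1 - z) ^ 2` times `6 i ε` -/
noncomputable def g₀ (ε : ℝ) (z : ℂ) : ℂ := 6 * I * ε * (z ^ 3 * (3 + 2 * z) / (1 - z) ^ 2)

/-- the analytic part before normalisation -/
noncomputable def h₀ (ε : ℝ) (z : ℂ) : ℂ :=
  z / (1 - z) ^ 2 + I * ε * (z ^ 3 - 3 * z) +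
    6 * (ε : ℂ) ^ 2 * (6 * z ^ 6 - 3 * z ^ 5 - 12 * z ^ 4 + 5 * z ^ 3 + 6 * z ^ 2) + g₀ ε z

/-- derivative of `g₀` -/
noncomputable def g₁ (ε : ℝ) (z : ℂ) : ℂ :=
  6 * I * ε * (z ^ 2 * (9 - 4 * z) * ((1 + z) / (1 - z) ^ 3))

/-- derivative of `h₀` -/
noncomputable def h₁ (ε : ℝ) (z : ℂ) : ℂ :=
  (1 + z) / (1 - z) ^ 3 + I * ε * (3 * z ^ 2 - 3) +
    6 * (ε : ℂ) ^ 2 * (36 * z ^ 5 - 15 * z ^ 4 - 48 * z ^ 3 + 15 * z ^ 2 + 12 * z) + g₁ ε z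

lemma one_sub_ne {z : ℂ} (hz : z ∈ Metric.ball (0 : ℂ) 1) : 1 - z ≠ 0 := by
  intro h
  have h1 : z = 1 := (sub_eq_zero.1 h).symm
  rw [h1, mem_ball_zero_iff] at hz
  simp at hz

lemma one_add_ne' {z : ℂ} (hz : z ∈ Metric.ball (0 : ℂ) 1) : 1 + z ≠ 0 := by
  intro h
  have h1 : z = -1 := by linear_combination h
  rw [h1, mem_ball_zero_iff] at hz
  simp at hz

lemma hasDerivAt_one_sub (z : ℂ) (n : ℕ) :
    HasDerivAt (fun z : ℂ => (1 - z) ^ n) (n * (1 - z) ^ (n - 1) * (-1)) z := by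
  have h : HasDerivAt (fun z : ℂ => 1 - z) (-1) z := by
    simpa using (hasDerivAt_id z).const_sub 1
  exact h.pow n

lemma hasDerivAt_k {z : ℂ} (hz : 1 - z ≠ 0) :
    HasDerivAt (fun z : ℂ => z / (1 - z) ^ 2) ((1 + z) / (1 - z) ^ 3) z := by
  have h := (hasDerivAt_id z).div (hasDerivAt_one_sub z 2) (pow_ne_zero 2 hz)
  refine h.congr_deriv ?_
  simp only [id]
  push_cast
  field_simp
  ring

lemma hasDerivAt_g₀ (ε : ℝ) {z : ℂ} (hz : 1 - z ≠ 0) : HasDerivAt (g₀ ε) (g₁ ε z) z := by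
  have h1 : HasDerivAt (fun z : ℂ => z ^ 3 * (3 + 2 * z)) (9 * z ^ 2 + 8 * z ^ 3) z := by
    have a := hasDerivAt_pow 3 z
    have b : HasDerivAt (fun z : ℂ => 3 + 2 * z) 2 z := by
      simpa using ((hasDerivAt_id z).const_mul (2 : ℂ)).const_add 3
    refine (a.mul b).congr_deriv ?_
    push_cast
    ring
  have h := (h1.div (hasDerivAt_one_sub z 2) (pow_ne_zero 2 hz)).const_mul (6 * I * (ε : ℂ))
  refine h.congr_deriv ?_
  unfold g₁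
  push_cast
  field_simp
  ring

lemma hasDerivAt_h₀ (ε : ℝ) {z : ℂ} (hz : 1 - z ≠ 0) : HasDerivAt (h₀ ε) (h₁ ε z) z := by
  have h1 : HasDerivAt (fun z : ℂ => z ^ 3 - 3 * z) (3 * z ^ 2 - 3) z := by
    have a := hasDerivAt_pow 3 z
    have b := (hasDerivAt_id z).const_mul (3 : ℂ)
    refine (a.sub b).congr_deriv ?_
    push_cast
    ring
  have h2 : HasDerivAt (fun z : ℂ => 6 * z ^ 6 - 3 * z ^ 5 - 12 * z ^ 4 + 5 * z ^ 3 + 6 * z ^ 2)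
      (36 * z ^ 5 - 15 * z ^ 4 - 48 * z ^ 3 + 15 * z ^ 2 + 12 * z) z := by
    have a6 := (hasDerivAt_pow 6 z).const_mul (6 : ℂ)
    have a5 := (hasDerivAt_pow 5 z).const_mul (3 : ℂ)
    have a4 := (hasDerivAt_pow 4 z).const_mul (12 : ℂ)
    have a3 := (hasDerivAt_pow 3 z).const_mul (5 : ℂ)
    have a2 := (hasDerivAt_pow 2 z).const_mul (6 : ℂ)
    refine ((((a6.sub a5).sub a4).add a3).add a2).congr_deriv ?_
    push_cast
    ring
  exact (((hasDerivAt_k hz).add (h1.const_mul (I * (ε : ℂ)))).add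
    (h2.const_mul (6 * (ε : ℂ) ^ 2))).add (hasDerivAt_g₀ ε hz)

/-- the second derivatives at the origin -/
lemma hasDerivAt_g₁ (ε : ℝ) : HasDerivAt (g₁ ε) 0 0 := by
  have hz : (1 - (0 : ℂ)) ≠ 0 := by simp
  have b : HasDerivAt (fun z : ℂ => (1 + z) / (1 - z) ^ 3) 4 0 := by
    have c : HasDerivAt (fun z : ℂ => 1 + z) 1 0 := by
      simpa using (hasDerivAt_id (0 : ℂ)).const_add 1
    refine (c.div (hasDerivAt_one_sub 0 3) (pow_ne_zero 3 hz)).congr_deriv ?_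
    norm_num
  have a : HasDerivAt (fun z : ℂ => z ^ 2 * (9 - 4 * z)) 0 0 := by
    have a1 := hasDerivAt_pow 2 (0 : ℂ)
    have a2 : HasDerivAt (fun z : ℂ => 9 - 4 * z) (-4) 0 := by
      simpa using ((hasDerivAt_id (0 : ℂ)).const_mul (4 : ℂ)).const_sub 9
    refine (a1.mul a2).congr_deriv ?_
    norm_num
  refine ((a.mul b).const_mul (6 * I * (ε : ℂ))).congr_deriv ?_
  norm_num

lemma hasDerivAt_h₁ (ε : ℝ) : HasDerivAt (h₁ ε) (4 + 72 * (ε : ℂ) ^ 2) 0 := by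
  have hz : (1 - (0 : ℂ)) ≠ 0 := by simp
  have b : HasDerivAt (fun z : ℂ => (1 + z) / (1 - z) ^ 3) 4 0 := by
    have c : HasDerivAt (fun z : ℂ => 1 + z) 1 0 := by
      simpa using (hasDerivAt_id (0 : ℂ)).const_add 1
    refine (c.div (hasDerivAt_one_sub 0 3) (pow_ne_zero 3 hz)).congr_deriv ?_
    norm_num
  have h1 : HasDerivAt (fun z : ℂ => 3 * z ^ 2 - 3) 0 0 := by
    refine (((hasDerivAt_pow 2 (0 : ℂ)).const_mul (3 : ℂ)).sub_const 3).congr_deriv ?_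
    norm_num
  have h2 : HasDerivAt (fun z : ℂ => 36 * z ^ 5 - 15 * z ^ 4 - 48 * z ^ 3 + 15 * z ^ 2 + 12 * z)
      12 0 := by
    have a5 := (hasDerivAt_pow 5 (0 : ℂ)).const_mul (36 : ℂ)
    have a4 := (hasDerivAt_pow 4 (0 : ℂ)).const_mul (15 : ℂ)
    have a3 := (hasDerivAt_pow 3 (0 : ℂ)).const_mul (48 : ℂ)
    have a2 := (hasDerivAt_pow 2 (0 : ℂ)).const_mul (15 : ℂ)
    have a1 := (hasDerivAt_id (0 : ℂ)).const_mul (12 : ℂ)
    refine ((((a5.sub a4).sub a3).add a2).add a1).congr_deriv ?_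
    norm_num
  have h := ((b.add (h1.const_mul (I * (ε : ℂ)))).add (h2.const_mul (6 * (ε : ℂ) ^ 2))).add
    (hasDerivAt_g₁ ε)
  refine h.congr_deriv ?_
  ring

/-- the map is sense preserving -/
lemma norm_g₁_lt {ε : ℝ} (hε : 0 < ε) (hε1 : ε ≤ 1 / 10 ^ 7) {z : ℂ}
    (hz : z ∈ Metric.ball (0 : ℂ) 1) : ‖g₁ ε z‖ < ‖h₁ ε z‖ := by
  have hz1 : ‖z‖ < 1 := by rwa [mem_ball_zero_iff] at hz
  have n1 := one_sub_ne hz
  have n2 := one_add_ne' hz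
  have hk : (1 + z) / (1 - z) ^ 3 ≠ 0 := div_ne_zero n2 (pow_ne_zero 3 n1)
  have eg : g₁ ε z = ((1 + z) / (1 - z) ^ 3) * (6 * I * ε * (z ^ 2 * (9 - 4 * z))) := by
    unfold g₁; ring
  have eh : h₁ ε z = ((1 + z) / (1 - z) ^ 3) * (1 - (3 * I * ε * (1 - z) ^ 4 -
      6 * (ε : ℂ) ^ 2 * ((1 - z) ^ 3 * (3 * z * (12 * z ^ 3 - 17 * z ^ 2 + z + 4))) -
      6 * I * ε * (z ^ 2 * (9 - 4 * z)))) := by
    unfold h₁ g₁
    field_simp
    ring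
  rw [eg, eh, norm_mul ((1 + z) / (1 - z) ^ 3) (6 * I * ε * (z ^ 2 * (9 - 4 * z))),
    norm_mul ((1 + z) / (1 - z) ^ 3) (1 - _)]
  apply mul_lt_mul_of_pos_left _ (norm_pos_iff.2 hk)
  have nz2 : ‖z‖ ^ 2 ≤ 1 := pow_le_one₀ (norm_nonneg _) hz1.le
  have nz3 : ‖z‖ ^ 3 ≤ 1 := pow_le_one₀ (norm_nonneg _) hz1.le
  have b0 : ‖1 - z‖ ≤ 2 := by
    have := norm_sub_le 1 z
    simp only [norm_one] at this
    linarith
  have b4 : ‖(1 - z) ^ 4‖ ≤ 16 := by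
    rw [norm_pow]
    calc ‖1 - z‖ ^ 4 ≤ 2 ^ 4 := pow_le_pow_left₀ (norm_nonneg _) b0 4
      _ = 16 := by norm_num
  have b3 : ‖(1 - z) ^ 3‖ ≤ 8 := by
    rw [norm_pow]
    calc ‖1 - z‖ ^ 3 ≤ 2 ^ 3 := pow_le_pow_left₀ (norm_nonneg _) b0 3
      _ = 8 := by norm_num
  have b5 : ‖z ^ 2 * (9 - 4 * z)‖ ≤ 13 := by
    rw [norm_mul, norm_pow]
    have : ‖9 - 4 * z‖ ≤ 13 := by
      refine (norm_sub_le _ _).trans ?_
      rw [norm_mul]; norm_num; linarith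
    calc ‖z‖ ^ 2 * ‖9 - 4 * z‖ ≤ 1 * 13 := mul_le_mul nz2 this (norm_nonneg _) zero_le_one
      _ = 13 := by norm_num
  have b6 : ‖3 * z * (12 * z ^ 3 - 17 * z ^ 2 + z + 4)‖ ≤ 102 := by
    have c1 : ‖12 * z ^ 3 - 17 * z ^ 2 + z + 4‖ ≤ 34 := by
      have i1 := norm_add_le (12 * z ^ 3 - 17 * z ^ 2 + z) 4
      have i2 := norm_add_le (12 * z ^ 3 - 17 * z ^ 2) z
      have i3 := norm_sub_le (12 * z ^ 3) (17 * z ^ 2)
      rw [norm_mul, norm_mul, norm_pow, norm_pow] at i3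
      norm_num at i1 i2 i3
      linarith
    have c2 : ‖3 * z‖ ≤ 3 := by rw [norm_mul]; norm_num; linarith
    rw [norm_mul]
    calc ‖3 * z‖ * ‖12 * z ^ 3 - 17 * z ^ 2 + z + 4‖ ≤ 3 * 34 :=
          mul_le_mul c2 c1 (norm_nonneg _) (by norm_num)
      _ = 102 := by norm_num
  have nε : ‖(ε : ℂ)‖ = ε := by rw [norm_real, Real.norm_of_nonneg hε.le]
  have t1 : ‖3 * I * ε * (1 - z) ^ 4‖ ≤ 3 * ε * 16 := by
    rw [norm_mul, norm_mul, norm_mul, norm_I, nε]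
    norm_num
    norm_num at b4
    nlinarith
  have t2 : ‖6 * (ε : ℂ) ^ 2 * ((1 - z) ^ 3 * (3 * z * (12 * z ^ 3 - 17 * z ^ 2 + z + 4)))‖ ≤
      6 * ε ^ 2 * (8 * 102) := by
    rw [norm_mul, norm_mul, norm_pow, nε]
    have c : ‖(1 - z) ^ 3 * (3 * z * (12 * z ^ 3 - 17 * z ^ 2 + z + 4))‖ ≤ 8 * 102 := by
      rw [norm_mul]
      exact mul_le_mul b3 b6 (norm_nonneg _) (by norm_num)
    have h6 : ‖(6 : ℂ)‖ = 6 := by norm_num
    rw [h6]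
    exact mul_le_mul_of_nonneg_left c (by positivity)
  have t3 : ‖6 * I * ε * (z ^ 2 * (9 - 4 * z))‖ ≤ 6 * ε * 13 := by
    rw [norm_mul, norm_mul, norm_mul, norm_I, nε]
    have h6 : ‖(6 : ℂ)‖ = 6 := by norm_num
    rw [h6, mul_one]
    exact mul_le_mul_of_nonneg_left b5 (by positivity)
  set P1 := 3 * I * ε * (1 - z) ^ 4
  set P2 := 6 * (ε : ℂ) ^ 2 * ((1 - z) ^ 3 * (3 * z * (12 * z ^ 3 - 17 * z ^ 2 + z + 4)))
  set P3 := 6 * I * ε * (z ^ 2 * (9 - 4 * z))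
  have i1 : ‖P1 - P2 - P3‖ ≤ ‖P1‖ + ‖P2‖ + ‖P3‖ :=
    (norm_sub_le _ _).trans (add_le_add (norm_sub_le _ _) le_rfl)
  have i2 : 1 - ‖P1 - P2 - P3‖ ≤ ‖1 - (P1 - P2 - P3)‖ := by
    have := norm_sub_norm_le (1 : ℂ) (P1 - P2 - P3)
    rwa [norm_one] at this
  have hε2 : ε ^ 2 ≤ 1 / 10 ^ 14 := by
    have := pow_le_pow_left₀ hε.le hε1 2
    norm_num at this ⊢
    linarith
  norm_num at hε1 hε2
  linarith

/-- relation with the map on the half plane -/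
lemma h₀_add_conj (ε : ℝ) {z : ℂ} (hz : z ∈ Metric.ball (0 : ℂ) 1) :
    h₀ ε z + (starRingEnd ℂ) (g₀ ε z) =
      F ε ((1 + z) / (1 - z)) + (-1 / 4 + 2 * I * ε - 12 * (ε : ℂ) ^ 2) := by
  have n1 := one_sub_ne hz
  have n2 := one_add_ne' hz
  have eE : E ((1 + z) / (1 - z)) = (1 + z) / 2 := by
    unfold E
    have : 1 + (1 + z) / (1 - z) = 2 / (1 - z) := by field_simp; ring
    rw [this]
    field_simp
  have eg : g₀ ε z + (starRingEnd ℂ) (g₀ ε z) =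
      -((12 * ε * (Sf ((1 + z) / (1 - z))).im : ℝ) : ℂ) := by
    rw [add_conj]
    have hS : g₀ ε z = 6 * I * ε * (Sf ((1 + z) / (1 - z)) - 1 / 4) := by
      unfold g₀ Sf
      rw [eE]
      field_simp
      ring
    have hre : (g₀ ε z).re = -(6 * ε * (Sf ((1 + z) / (1 - z))).im) := by
      rw [hS, show 6 * I * (ε : ℂ) * (Sf ((1 + z) / (1 - z)) - 1 / 4) =
        ((6 * ε : ℝ) : ℂ) * (I * (Sf ((1 + z) / (1 - z)) - 1 / 4)) by push_cast; ring,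
        re_ofReal_mul]
      have : (I * (Sf ((1 + z) / (1 - z)) - 1 / 4)).re = -(Sf ((1 + z) / (1 - z))).im := by
        rw [I_mul_re, sub_im]; simp
      rw [this]; ring
    rw [hre]
    push_cast
    ring
  have e1 : h₀ ε z + (starRingEnd ℂ) (g₀ ε z) = z / (1 - z) ^ 2 + I * ε * (z ^ 3 - 3 * z) +
    6 * (ε : ℂ) ^ 2 * (6 * z ^ 6 - 3 * z ^ 5 - 12 * z ^ 4 + 5 * z ^ 3 + 6 * z ^ 2) +
      (g₀ ε z + (starRingEnd ℂ) (g₀ ε z)) := by
    unfold h₀; ring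
  rw [e1, eg]
  unfold F Cf Qf
  rw [eE]
  have e2 : ((1 + z) / (1 - z)) ^ 2 / 4 = z / (1 - z) ^ 2 + 1 / 4 := by
    field_simp; ring
  rw [e2]
  ring

lemma re_pos {z : ℂ} (hz : z ∈ Metric.ball (0 : ℂ) 1) : 0 < ((1 + z) / (1 - z)).re := by
  have n1 := one_sub_ne hz
  have hz1 : ‖z‖ < 1 := by rwa [mem_ball_zero_iff] at hz
  have hn : z.re * z.re + z.im * z.im < 1 := by
    rw [← normSq_apply, normSq_eq_norm_sq]
    exact pow_lt_one₀ (norm_nonneg _) hz1 (by norm_num)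
  have hp : 0 < normSq (1 - z) := normSq_pos.2 n1
  rw [div_re, ← add_div]
  apply div_pos _ hp
  simp only [add_re, one_re, sub_re, add_im, one_im, sub_im]
  nlinarith

lemma injOn₀ {ε : ℝ} (hε : 0 < ε) (hε1 : ε ≤ 1 / 10 ^ 7) :
    Set.InjOn (fun z => h₀ ε z + (starRingEnd ℂ) (g₀ ε z)) (Metric.ball (0 : ℂ) 1) := by
  intro z hz w hw h
  simp only at h
  rw [h₀_add_conj ε hz, h₀_add_conj ε hw] at h
  have h1 := F_injOn hε hε1 (re_pos hz) (re_pos hw) (add_right_cancel h)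
  have n1 := one_sub_ne hz
  have n2 := one_sub_ne hw
  rw [div_eq_div_iff n1 n2] at h1
  linear_combination (1 / 2 : ℂ) * h1

/-- The main result: a counterexample for the second coefficient. -/
theorem main : ∃ h g : ℂ → ℂ,
    DifferentiableOn ℂ h (Metric.ball (0 : ℂ) 1) ∧ DifferentiableOn ℂ g (Metric.ball (0 : ℂ) 1) ∧
    h 0 = 0 ∧ deriv h 0 = 1 ∧ g 0 = 0 ∧ deriv g 0 = 0 ∧
    Set.InjOn (fun z => h z + (starRingEnd ℂ) (g z)) (Metric.ball (0 : ℂ) 1) ∧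
    (∀ z ∈ Metric.ball (0 : ℂ) 1, ‖deriv g z‖ < ‖deriv h z‖) ∧
    iteratedDeriv 2 g 0 = 0 ∧ 2 < ‖iteratedDeriv 2 h 0 / 2‖ := by
  obtain ⟨ε, hε, hε1⟩ : ∃ ε : ℝ, 0 < ε ∧ ε ≤ 1 / 10 ^ 7 := ⟨1 / 10 ^ 7, by positivity, le_rfl⟩
  set κ : ℂ := 1 - 3 * I * ε with hκ
  have hκre : κ.re = 1 := by
    rw [hκ, sub_re, show 3 * I * (ε : ℂ) = ((3 * ε : ℝ) : ℂ) * I by push_cast; ring,
      re_ofReal_mul, I_re]; simp
  have hκim : κ.im = -(3 * ε) := by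
    rw [hκ, sub_im, show 3 * I * (ε : ℂ) = ((3 * ε : ℝ) : ℂ) * I by push_cast; ring,
      im_ofReal_mul, I_im]; simp
  have hκ0 : κ ≠ 0 := by
    intro h; rw [h] at hκre; simp at hκre
  have hκc : (starRingEnd ℂ) κ ≠ 0 := by
    intro h
    exact hκ0 ((map_eq_zero _).1 h)
  have hκn : ‖(starRingEnd ℂ) κ‖ = ‖κ‖ := norm_conj κ
  have dh : ∀ z : ℂ, 1 - z ≠ 0 → HasDerivAt (fun z => h₀ ε z / κ) (h₁ ε z / κ) z :=
    fun z hz => (hasDerivAt_h₀ ε hz).div_const κ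
  have dg : ∀ z : ℂ, 1 - z ≠ 0 → HasDerivAt (fun z => g₀ ε z / (starRingEnd ℂ) κ)
      (g₁ ε z / (starRingEnd ℂ) κ) z :=
    fun z hz => (hasDerivAt_g₀ ε hz).div_const _
  have h00 : (0 : ℂ) ∈ Metric.ball (0 : ℂ) 1 := Metric.mem_ball_self one_pos
  have hev : ∀ᶠ z : ℂ in nhds 0, 1 - z ≠ 0 := by
    filter_upwards [Metric.ball_mem_nhds (0 : ℂ) one_pos] with z hz
    exact one_sub_ne hz
  refine ⟨fun z => h₀ ε z / κ, fun z => g₀ ε z / (starRingEnd ℂ) κ, ?_, ?_, ?_, ?_, ?_, ?_, ?_, ?_,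
    ?_, ?_⟩
  · intro z hz
    exact (dh z (one_sub_ne hz)).differentiableAt.differentiableWithinAt
  · intro z hz
    exact (dg z (one_sub_ne hz)).differentiableAt.differentiableWithinAt
  · simp [h₀, g₀]
  · rw [(dh 0 (one_sub_ne h00)).deriv]
    have : h₁ ε 0 = κ := by
      rw [hκ]; unfold h₁ g₁; norm_num; ring
    rw [this, div_self hκ0]
  · simp [g₀]
  · rw [(dg 0 (one_sub_ne h00)).deriv]
    simp [g₁]
  · intro z hz w hw h
    apply injOn₀ hε hε1 hz hw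
    simp only [map_div₀, conj_conj] at h
    rw [← add_div, ← add_div] at h
    exact (div_left_inj' hκ0).1 h
  · intro z hz
    rw [(dh z (one_sub_ne hz)).deriv, (dg z (one_sub_ne hz)).deriv, norm_div, norm_div, hκn]
    exact div_lt_div_of_pos_right (norm_g₁_lt hε hε1 hz) (norm_pos_iff.2 hκ0)
  · rw [iteratedDeriv_succ, iteratedDeriv_one]
    have e : deriv (fun z => g₀ ε z / (starRingEnd ℂ) κ) =ᶠ[nhds 0]
        fun z => g₁ ε z / (starRingEnd ℂ) κ := by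
      filter_upwards [hev] with z hz
      exact (dg z hz).deriv
    rw [e.deriv_eq, ((hasDerivAt_g₁ ε).div_const _).deriv, zero_div]
  · rw [iteratedDeriv_succ, iteratedDeriv_one]
    have e : deriv (fun z => h₀ ε z / κ) =ᶠ[nhds 0] fun z => h₁ ε z / κ := by
      filter_upwards [hev] with z hz
      exact (dh z hz).deriv
    rw [e.deriv_eq, ((hasDerivAt_h₁ ε).div_const _).deriv]
    have e2 : (4 + 72 * (ε : ℂ) ^ 2) / κ / 2 = ((2 + 36 * ε ^ 2 : ℝ) : ℂ) / κ := by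
      push_cast; field_simp; ring
    rw [e2, norm_div, norm_real, Real.norm_of_nonneg (by positivity),
      lt_div_iff₀ (norm_pos_iff.2 hκ0)]
    have hsq : ‖κ‖ ^ 2 = 1 + 9 * ε ^ 2 := by
      rw [← normSq_eq_norm_sq, normSq_apply, hκre, hκim]; ring
    apply lt_of_pow_lt_pow_left₀ 2 (by positivity)
    rw [mul_pow, hsq]
    nlinarith [pow_pos hε 2, pow_pos hε 4]

end Pool.Agent.H87.Harm
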